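import Mathlib

/-!
# MP_c418e9_an: half-log-concavity of the first Dirichlet eigenfunction

The first Dirichlet eigenfunction of an equilateral triangle, normalized by `max φ = 1`, is not
`1/2`-log-concave.
-/

set_option autoImplicit false

open Filter Topology Set Laplacian

namespace Pool.Agent.Results.MP_c418e9_an.Triangle

section Defs

variable {E : Type} [NormedAddCommGroup E] [InnerProductSpace ℝ E] [FiniteDimensional ℝ E]

/-- `u` is a (classical) Dirichlet eigenfunction of `-Δ` in `Ω` with eigenvalue `μ` -/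
structure IsDirichletEigenfunction (Ω : Set E) (μ : ℝ) (u : E → ℝ) : Prop where
  contDiffOn : ContDiffOn ℝ 2 u Ω
  continuousOn : ContinuousOn u (closure Ω)
  eq : ∀ x ∈ Ω, -(Δ u) x = μ * u x
  boundary : ∀ x ∈ frontier Ω, u x = 0
  nontrivial : ∃ x ∈ Ω, u x ≠ 0

/-- `μ` is the first (the least) Dirichlet eigenvalue of `-Δ` in `Ω` -/
def IsFirstEigenvalue (Ω : Set E) (μ : ℝ) : Prop :=
  IsLeast {μ : ℝ | ∃ u : E → ℝ, IsDirichletEigenfunction Ω μ u} μ

/-- `φ` is a positive first Dirichlet eigenfunction in `Ω` -/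
def IsPositiveFirstEigenfunction (Ω : Set E) (φ : E → ℝ) : Prop :=
  ∃ μ : ℝ, IsFirstEigenvalue Ω μ ∧ IsDirichletEigenfunction Ω μ φ ∧ ∀ x ∈ Ω, 0 < φ x

end Defs

/-- the plane -/
abbrev Pl : Type := EuclideanSpace ℝ (Fin 2)

/-! ### The Laplacian in the plane -/

theorem second_deriv_nonneg {g : ℝ → ℝ} {x : ℝ} (hmin : IsLocalMin g x) (hc : ContinuousAt g x) :
    0 ≤ deriv (deriv g) x := by
  by_contra hcon
  push Not at hcon
  have h1 : deriv g x = 0 := hmin.deriv_eq_zero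
  have h2 : IsLocalMax g x := isLocalMax_of_deriv_deriv_neg hcon h1 hc
  have h3 : g =ᶠ[𝓝 x] (fun _ => g x) := by
    filter_upwards [hmin, h2] with y hy1 hy2
    exact le_antisymm hy2 hy1
  have h4 : deriv g =ᶠ[𝓝 x] deriv (fun _ => g x) := h3.deriv
  have h5 : deriv (deriv g) x = deriv (deriv (fun _ : ℝ => g x)) x := h4.deriv_eq
  simp at h5
  linarith

/-- second derivatives along a line -/
theorem second_line {G : Pl → ℝ} {p : Pl} (hG : ContDiffAt ℝ 2 G p) (d : Pl) :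
    fderiv ℝ (fderiv ℝ G) p d d = deriv (deriv (fun s : ℝ => G (p + s • d))) 0 := by
  have hl : ∀ s : ℝ, HasDerivAt (fun s : ℝ => p + s • d) d s := fun s => by
    simpa using ((hasDerivAt_id s).smul_const d).const_add p
  have hline : Tendsto (fun s : ℝ => p + s • d) (𝓝 0) (𝓝 p) := by
    have := (hl 0).continuousAt
    simpa [ContinuousAt] using this
  have hev : ∀ᶠ q in 𝓝 p, DifferentiableAt ℝ G q := by
    have := hG.eventually (by simp)
    filter_upwards [this] with q hq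
    exact hq.differentiableAt (by norm_num)
  have hd1 : deriv (fun s : ℝ => G (p + s • d)) =ᶠ[𝓝 0] fun s => fderiv ℝ G (p + s • d) d := by
    filter_upwards [hline.eventually hev] with s hs
    exact (hs.hasFDerivAt.comp_hasDerivAt s (hl s)).deriv
  rw [hd1.deriv_eq]
  have h1 : DifferentiableAt ℝ (fderiv ℝ G) (p + (0 : ℝ) • d) := by
    have : DifferentiableAt ℝ (fderiv ℝ G) p :=
      (hG.fderiv_right (m := 1) (by norm_num)).differentiableAt (by norm_num)
    simpa using this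
  have h2 := (h1.hasFDerivAt.clm_apply (hasFDerivAt_const d (p + (0 : ℝ) • d)))
  have h3 := (h2.comp_hasDerivAt (0 : ℝ) (hl 0)).deriv
  have h4 : (fun s : ℝ => fderiv ℝ G (p + s • d) d) = (fun q => fderiv ℝ G q d) ∘
      (fun s : ℝ => p + s • d) := rfl
  rw [h4, h3]
  simp

/-- the coordinate directions -/
noncomputable def dir (i : Fin 2) : Pl := EuclideanSpace.single i 1

theorem lap_eq {G : Pl → ℝ} {p : Pl} (hG : ContDiffAt ℝ 2 G p) :
    (Δ G) p = ∑ i : Fin 2, deriv (deriv (fun s : ℝ => G (p + s • dir i))) 0 := by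
  rw [InnerProductSpace.laplacian_eq_iteratedFDeriv_orthonormalBasis G
    (EuclideanSpace.basisFun (Fin 2) ℝ)]
  apply Finset.sum_congr rfl
  intro i _
  rw [← second_line hG, iteratedFDeriv_two_apply]
  simp [dir]

theorem lap_nonneg {G : Pl → ℝ} {p : Pl} (hG : ContDiffAt ℝ 2 G p) (hmin : IsLocalMin G p) :
    0 ≤ (Δ G) p := by
  rw [lap_eq hG]
  apply Finset.sum_nonneg
  intro i _
  have hcont : Continuous (fun s : ℝ => p + s • dir i) := by fun_prop
  have hline : Tendsto (fun s : ℝ => p + s • dir i) (𝓝 0) (𝓝 p) := by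
    have := hcont.tendsto 0
    simpa using this
  apply second_deriv_nonneg
  · filter_upwards [hline.eventually hmin] with s hs
    simpa using hs
  · have h1 : ContinuousAt G (p + (0 : ℝ) • dir i) := by simpa using hG.continuousAt
    exact ContinuousAt.comp (f := fun s : ℝ => p + s • dir i) h1 hcont.continuousAt

/-! ### The trigonometric functions -/

/-- a plane wave -/
noncomputable def wave (r a b : ℝ) (p : Pl) : ℝ :=
  Real.sin (2 * Real.pi * (1 / 3 + r * (a * p 0 + b * p 1)))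

lemma contDiff_coord (i : Fin 2) : ContDiff ℝ 2 (fun p : Pl => p i) :=
  (EuclideanSpace.proj (𝕜 := ℝ) i).contDiff

lemma contDiff_wave (r a b : ℝ) : ContDiff ℝ 2 (wave r a b) := by
  have h0 := contDiff_coord 0
  have h1 := contDiff_coord 1
  unfold wave
  fun_prop

lemma deriv_deriv_sin (c₀ c₁ : ℝ) :
    deriv (deriv (fun s : ℝ => Real.sin (c₀ + s * c₁))) 0 = -(c₁ ^ 2 * Real.sin c₀) := by
  have h1 : ∀ s : ℝ, HasDerivAt (fun s : ℝ => c₀ + s * c₁) c₁ s := fun s => by
    simpa using ((hasDerivAt_id s).mul_const c₁).const_add c₀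
  have h2 : deriv (fun s : ℝ => Real.sin (c₀ + s * c₁)) = fun s => Real.cos (c₀ + s * c₁) * c₁ := by
    funext s
    exact ((h1 s).sin).deriv
  rw [h2]
  have h3 := ((h1 0).cos).mul_const c₁
  rw [h3.deriv]
  simp only [zero_mul, add_zero]
  ring

lemma lap_wave (r a b : ℝ) (p : Pl) :
    (Δ (wave r a b)) p = -((2 * Real.pi * r) ^ 2 * (a ^ 2 + b ^ 2) * wave r a b p) := by
  rw [lap_eq (contDiff_wave r a b).contDiffAt, Fin.sum_univ_two]
  have e0 : (fun s : ℝ => wave r a b (p + s • dir 0)) = fun s =>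
      Real.sin (2 * Real.pi * (1 / 3 + r * (a * p 0 + b * p 1)) + s * (2 * Real.pi * r * a)) := by
    funext s
    unfold wave dir
    congr 1
    simp
    ring
  have e1 : (fun s : ℝ => wave r a b (p + s • dir 1)) = fun s =>
      Real.sin (2 * Real.pi * (1 / 3 + r * (a * p 0 + b * p 1)) + s * (2 * Real.pi * r * b)) := by
    funext s
    unfold wave dir
    congr 1
    simp
    ring
  rw [e0, e1, deriv_deriv_sin, deriv_deriv_sin]
  unfold wave
  ring

/-- the sum of the three waves -/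
noncomputable def F (r : ℝ) : Pl → ℝ :=
  wave r 1 0 + wave r (-1 / 2) (√3 / 2) + wave r (-1 / 2) (-(√3 / 2))

lemma contDiff_F (r : ℝ) : ContDiff ℝ 2 (F r) :=
  ((contDiff_wave _ _ _).add (contDiff_wave _ _ _)).add (contDiff_wave _ _ _)

lemma lap_F (r : ℝ) (p : Pl) : (Δ (F r)) p = -((2 * Real.pi * r) ^ 2 * F r p) := by
  unfold F
  have h12 : ContDiff ℝ 2 (wave r 1 0 + wave r (-1 / 2) (√3 / 2)) :=
    (contDiff_wave _ _ _).add (contDiff_wave _ _ _)
  have e1 : (Δ (wave r 1 0 + wave r (-1 / 2) (√3 / 2) + wave r (-1 / 2) (-(√3 / 2)))) p =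
      (Δ (wave r 1 0 + wave r (-1 / 2) (√3 / 2))) p + (Δ (wave r (-1 / 2) (-(√3 / 2)))) p :=
    ContDiffAt.laplacian_add h12.contDiffAt (contDiff_wave _ _ _).contDiffAt
  have e2 : (Δ (wave r 1 0 + wave r (-1 / 2) (√3 / 2))) p =
      (Δ (wave r 1 0)) p + (Δ (wave r (-1 / 2) (√3 / 2))) p :=
    ContDiffAt.laplacian_add (contDiff_wave _ _ _).contDiffAt (contDiff_wave _ _ _).contDiffAt
  rw [e1, e2, lap_wave, lap_wave, lap_wave]
  have h3 : √3 ^ 2 = 3 := Real.sq_sqrt (by norm_num)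
  simp only [Pi.add_apply]
  linear_combination (-(2 * Real.pi * r) ^ 2 * (wave r (-1 / 2) (√3 / 2) p +
    wave r (-1 / 2) (-(√3 / 2)) p) / 4) * h3

/-- the three affine coordinates, dilated by `r` about the centroid -/
noncomputable def cu (r : ℝ) (p : Pl) : ℝ := 1 / 3 + r * (1 * p 0 + 0 * p 1)
noncomputable def cv (r : ℝ) (p : Pl) : ℝ := 1 / 3 + r * (-1 / 2 * p 0 + √3 / 2 * p 1)
noncomputable def cw (r : ℝ) (p : Pl) : ℝ := 1 / 3 + r * (-1 / 2 * p 0 + -(√3 / 2) * p 1)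

lemma csum (r : ℝ) (p : Pl) : cu r p + cv r p + cw r p = 1 := by
  unfold cu cv cw; ring

lemma sin_sum {u v w : ℝ} (h : u + v + w = 1) :
    Real.sin (2 * Real.pi * u) + Real.sin (2 * Real.pi * v) + Real.sin (2 * Real.pi * w) =
      4 * (Real.sin (Real.pi * u) * Real.sin (Real.pi * v) * Real.sin (Real.pi * w)) := by
  obtain rfl : w = 1 - u - v := by linarith
  have e1 : 2 * Real.pi * (1 - u - v) = -(2 * (Real.pi * u + Real.pi * v)) + 2 * Real.pi := by ring
  have e2 : Real.pi * (1 - u - v) = Real.pi - (Real.pi * u + Real.pi * v) := by ring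
  rw [e1, e2, Real.sin_add_two_pi, Real.sin_neg, Real.sin_pi_sub, Real.sin_two_mul, Real.sin_add,
    Real.cos_add, mul_assoc, mul_assoc, Real.sin_two_mul, Real.sin_two_mul]
  have hA := Real.sin_sq_add_cos_sq (Real.pi * u)
  have hB := Real.sin_sq_add_cos_sq (Real.pi * v)
  linear_combination (-2 * Real.sin (Real.pi * u) * Real.cos (Real.pi * u)) * hB +
    (-2 * Real.sin (Real.pi * v) * Real.cos (Real.pi * v)) * hA

lemma F_eq (r : ℝ) (p : Pl) : F r p = 4 * (Real.sin (Real.pi * cu r p) *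
    Real.sin (Real.pi * cv r p) * Real.sin (Real.pi * cw r p)) := by
  rw [← sin_sum (csum r p)]
  rfl

lemma sin_pos {u : ℝ} (h0 : 0 < u) (h1 : u < 1) : 0 < Real.sin (Real.pi * u) := by
  apply Real.sin_pos_of_pos_of_lt_pi
  · exact mul_pos Real.pi_pos h0
  · calc Real.pi * u < Real.pi * 1 := mul_lt_mul_of_pos_left h1 Real.pi_pos
      _ = Real.pi := mul_one _

lemma F_pos {r : ℝ} {p : Pl} (hu : 0 < cu r p) (hv : 0 < cv r p) (hw : 0 < cw r p) : 0 < F r p := by
  have h := csum r p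
  rw [F_eq]
  have := sin_pos hu (by linarith)
  have := sin_pos hv (by linarith)
  have := sin_pos hw (by linarith)
  positivity

lemma sin_prod_le {A B C : ℝ} (h : A + B + C = Real.pi) (hC : 0 ≤ Real.sin C) :
    Real.sin A * Real.sin B * Real.sin C ≤ 3 * √3 / 8 := by
  have h1 : Real.sin A * Real.sin B ≤ (1 + Real.cos C) / 2 := by
    have e : Real.cos C = -Real.cos (A + B) := by
      rw [show A + B = Real.pi - C by linarith, Real.cos_pi_sub, neg_neg]
    have e2 := Real.cos_add A B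
    have e3 := Real.cos_sub A B
    have := Real.cos_le_one (A - B)
    rw [e]
    linarith
  have h2 : Real.sin C * (1 + Real.cos C) ≤ 3 * √3 / 4 := by
    have h3 : √3 ^ 2 = 3 := Real.sq_sqrt (by norm_num)
    have hs := Real.sin_sq_add_cos_sq C
    apply le_of_sq_le_sq _ (by positivity)
    have : (Real.sin C * (1 + Real.cos C)) ^ 2 =
        (1 - Real.cos C ^ 2) * (1 + Real.cos C) ^ 2 := by
      rw [mul_pow]; congr 1; linarith
    rw [this]
    have e : (3 * √3 / 4) ^ 2 = 27 / 16 := by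
      rw [div_pow, mul_pow, h3]; norm_num
    rw [e]
    set c := Real.cos C
    nlinarith [sq_nonneg (c - 1 / 2), sq_nonneg (c + 3 / 2), sq_nonneg ((c - 1 / 2) * (c + 3 / 2)),
      mul_nonneg (sq_nonneg (c - 1 / 2)) (sq_nonneg (c + 3 / 2))]
  calc Real.sin A * Real.sin B * Real.sin C ≤ (1 + Real.cos C) / 2 * Real.sin C :=
        mul_le_mul_of_nonneg_right h1 hC
    _ = Real.sin C * (1 + Real.cos C) / 2 := by ring
    _ ≤ 3 * √3 / 8 := by linarith

/-! ### The equilateral triangle -/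

/-- the open equilateral triangle with centroid `0` -/
def Ω : Set Pl := {p | 0 < cu 1 p ∧ 0 < cv 1 p ∧ 0 < cw 1 p}

lemma continuous_coord (i : Fin 2) : Continuous (fun p : Pl => p i) := (contDiff_coord i).continuous

lemma continuous_cu (r : ℝ) : Continuous (cu r) := by
  have h0 := continuous_coord 0
  have h1 := continuous_coord 1
  unfold cu
  fun_prop

lemma continuous_cv (r : ℝ) : Continuous (cv r) := by
  have h0 := continuous_coord 0
  have h1 := continuous_coord 1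
  unfold cv
  fun_prop

lemma continuous_cw (r : ℝ) : Continuous (cw r) := by
  have h0 := continuous_coord 0
  have h1 := continuous_coord 1
  unfold cw
  fun_prop

lemma isOpen_Ω : IsOpen Ω :=
  (isOpen_lt continuous_const (continuous_cu 1)).inter
    ((isOpen_lt continuous_const (continuous_cv 1)).inter
      (isOpen_lt continuous_const (continuous_cw 1)))

lemma nonempty_Ω : Ω.Nonempty := ⟨0, by simp [Ω, cu, cv, cw]⟩

lemma convex_Ω : Convex ℝ Ω := by
  intro p hp q hq a b ha hb hab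
  obtain ⟨h1, h2, h3⟩ := hp
  obtain ⟨k1, k2, k3⟩ := hq
  have key : ∀ x y : ℝ, 0 < x → 0 < y → 0 < a * x + b * y := by
    intro x y hx hy
    rcases ha.eq_or_lt with h | h
    · have : b = 1 := by linarith
      rw [← h, this]; linarith
    · have : 0 ≤ b * y := mul_nonneg hb hy.le
      have : 0 < a * x := mul_pos h hx
      linarith
  refine ⟨?_, ?_, ?_⟩
  · have : cu 1 (a • p + b • q) = a * cu 1 p + b * cu 1 q := by
      unfold cu
      simp only [PiLp.add_apply, PiLp.smul_apply, smul_eq_mul]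
      linear_combination (-(1 / 3 : ℝ)) * hab
    rw [this]; exact key _ _ h1 k1
  · have : cv 1 (a • p + b • q) = a * cv 1 p + b * cv 1 q := by
      unfold cv
      simp only [PiLp.add_apply, PiLp.smul_apply, smul_eq_mul]
      linear_combination (-(1 / 3 : ℝ)) * hab
    rw [this]; exact key _ _ h2 k2
  · have : cw 1 (a • p + b • q) = a * cw 1 p + b * cw 1 q := by
      unfold cw
      simp only [PiLp.add_apply, PiLp.smul_apply, smul_eq_mul]
      linear_combination (-(1 / 3 : ℝ)) * hab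
    rw [this]; exact key _ _ h3 k3

lemma isBounded_Ω : Bornology.IsBounded Ω := by
  rw [isBounded_iff_forall_norm_le]
  refine ⟨2, fun p hp => ?_⟩
  obtain ⟨h1, h2, h3⟩ := hp
  have hs := csum 1 p
  have h3' : √3 ^ 2 = 3 := Real.sq_sqrt (by norm_num)
  have hd : cv 1 p - cw 1 p = √3 * p 1 := by unfold cv cw; ring
  have hu : p 0 = cu 1 p - 1 / 3 := by unfold cu; ring
  rw [EuclideanSpace.norm_eq, Fin.sum_univ_two, Real.norm_eq_abs, Real.norm_eq_abs, sq_abs, sq_abs]
  rw [show (2 : ℝ) = √4 by rw [show (4 : ℝ) = 2 ^ 2 by norm_num, Real.sqrt_sq (by norm_num)]]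
  apply Real.sqrt_le_sqrt
  have e1 : p 0 ^ 2 ≤ 1 := by
    have a : -1 ≤ p 0 := by rw [hu]; linarith
    have b : p 0 ≤ 1 := by rw [hu]; linarith
    nlinarith
  have e2 : 3 * p 1 ^ 2 ≤ 1 := by
    have : (√3 * p 1) ^ 2 ≤ 1 := by
      rw [← hd]
      have a : -1 ≤ cv 1 p - cw 1 p := by linarith
      have b : cv 1 p - cw 1 p ≤ 1 := by linarith
      nlinarith
    rw [mul_pow, h3'] at this
    exact this
  linarith

lemma closure_subset : closure Ω ⊆ {p | 0 ≤ cu 1 p ∧ 0 ≤ cv 1 p ∧ 0 ≤ cw 1 p} := by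
  apply closure_minimal
  · rintro p ⟨h1, h2, h3⟩
    exact ⟨h1.le, h2.le, h3.le⟩
  · exact (isClosed_le continuous_const (continuous_cu 1)).inter
      ((isClosed_le continuous_const (continuous_cv 1)).inter
        (isClosed_le continuous_const (continuous_cw 1)))

lemma F_pos_closure {r : ℝ} (h0 : 0 < r) (h1 : r < 1) {p : Pl} (hp : p ∈ closure Ω) : 0 < F r p := by
  obtain ⟨k1, k2, k3⟩ := closure_subset hp
  have e1 : cu r p = (1 - r) / 3 + r * cu 1 p := by unfold cu; ring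
  have e2 : cv r p = (1 - r) / 3 + r * cv 1 p := by unfold cv; ring
  have e3 : cw r p = (1 - r) / 3 + r * cw 1 p := by unfold cw; ring
  apply F_pos
  · rw [e1]; have := mul_nonneg h0.le k1; linarith
  · rw [e2]; have := mul_nonneg h0.le k2; linarith
  · rw [e3]; have := mul_nonneg h0.le k3; linarith

/-- the normalized eigenfunction -/
noncomputable def φ (p : Pl) : ℝ := 2 / (3 * √3) * F 1 p

lemma c_pos : 0 < 2 / (3 * √3) := by positivity

lemma φ_pos {p : Pl} (hp : p ∈ Ω) : 0 < φ p := mul_pos c_pos (F_pos hp.1 hp.2.1 hp.2.2)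

lemma φ_le_one {p : Pl} (hp : p ∈ Ω) : φ p ≤ 1 := by
  have hs := csum 1 p
  have h3 : √3 ^ 2 = 3 := Real.sq_sqrt (by norm_num)
  have h3p : 0 < √3 := by positivity
  have h := sin_prod_le (A := Real.pi * cu 1 p) (B := Real.pi * cv 1 p) (C := Real.pi * cw 1 p)
    (by rw [← mul_add, ← mul_add, hs, mul_one]) (sin_pos hp.2.2 (by linarith [hp.1, hp.2.1])).le
  rw [φ, F_eq]
  calc 2 / (3 * √3) * (4 * (Real.sin (Real.pi * cu 1 p) * Real.sin (Real.pi * cv 1 p) *
      Real.sin (Real.pi * cw 1 p))) ≤ 2 / (3 * √3) * (4 * (3 * √3 / 8)) := by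
        apply mul_le_mul_of_nonneg_left _ c_pos.le
        linarith
    _ = 1 := by field_simp; norm_num

lemma φ_frontier {p : Pl} (hp : p ∈ frontier Ω) : φ p = 0 := by
  rw [isOpen_Ω.frontier_eq] at hp
  obtain ⟨k1, k2, k3⟩ := closure_subset hp.1
  have hn : ¬ (0 < cu 1 p ∧ 0 < cv 1 p ∧ 0 < cw 1 p) := hp.2
  rw [φ, F_eq]
  rcases k1.eq_or_lt with h | h
  · rw [← h]; simp
  rcases k2.eq_or_lt with h' | h'
  · rw [← h']; simp
  rcases k3.eq_or_lt with h'' | h''
  · rw [← h'']; simp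
  exact absurd ⟨h, h', h''⟩ hn

lemma contDiff_φ : ContDiff ℝ 2 φ := contDiff_const.mul (contDiff_F 1)

lemma lap_φ (p : Pl) : (Δ φ) p = -((2 * Real.pi) ^ 2 * φ p) := by
  have e : φ = (2 / (3 * √3)) • F 1 := rfl
  rw [e, InnerProductSpace.laplacian_smul _ (contDiff_F 1).contDiffAt, lap_F]
  simp only [Pi.smul_apply, smul_eq_mul]
  ring

lemma isDirichletEigenfunction_φ : IsDirichletEigenfunction Ω ((2 * Real.pi) ^ 2) φ where
  contDiffOn := contDiff_φ.contDiffOn
  continuousOn := contDiff_φ.continuous.continuousOn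
  eq p _ := by rw [lap_φ, neg_neg]
  boundary p hp := φ_frontier hp
  nontrivial := by
    obtain ⟨p, hp⟩ := nonempty_Ω
    exact ⟨p, hp, (φ_pos hp).ne'⟩

lemma neg_eigen {μ : ℝ} {g : Pl → ℝ} (hg : IsDirichletEigenfunction Ω μ g) :
    IsDirichletEigenfunction Ω μ (-g) where
  contDiffOn := hg.contDiffOn.neg
  continuousOn := hg.continuousOn.neg
  eq p hp := by
    have := hg.eq p hp
    rw [InnerProductSpace.laplacian_neg]
    simp only [Pi.neg_apply]
    linarith
  boundary p hp := by simp [hg.boundary p hp]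
  nontrivial := by
    obtain ⟨p, hp, h⟩ := hg.nontrivial
    exact ⟨p, hp, by simpa using h⟩

/-- comparison with the eigenfunction of a slightly larger triangle -/
lemma eigenvalue_ge {μ : ℝ} {g : Pl → ℝ} (hg : IsDirichletEigenfunction Ω μ g) {p₁ : Pl}
    (hp₁ : p₁ ∈ Ω) (hgp : 0 < g p₁) : (2 * Real.pi) ^ 2 ≤ μ := by
  by_contra hlt
  push Not at hlt
  have hpi : 0 < (2 * Real.pi) ^ 2 := by positivity
  obtain ⟨r, hr0, hr1, hr⟩ : ∃ r : ℝ, 0 < r ∧ r < 1 ∧ μ < (2 * Real.pi * r) ^ 2 := by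
    have hc : ContinuousAt (fun r : ℝ => (2 * Real.pi * r) ^ 2) 1 := by fun_prop
    have h1 : ∀ᶠ r in 𝓝 (1 : ℝ), μ < (2 * Real.pi * r) ^ 2 := by
      apply hc.eventually (lt_mem_nhds _)
      simpa using hlt
    have h2 : ∀ᶠ r in 𝓝 (1 : ℝ), 0 < r := lt_mem_nhds one_pos
    have h3 : ∃ᶠ r in 𝓝 (1 : ℝ), r < 1 := by
      have h4 : ∀ᶠ r in 𝓝[<] (1 : ℝ), r ∈ Iio (1 : ℝ) := self_mem_nhdsWithin
      exact h4.frequently.filter_mono nhdsWithin_le_nhds
    obtain ⟨r, h3, h1, h2⟩ := (h3.and_eventually (h1.and h2)).exists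
    exact ⟨r, h2, h3, h1⟩
  have hcomp : IsCompact (closure Ω) := isBounded_Ω.isCompact_closure
  have hψc : Continuous (F r) := (contDiff_F r).continuous
  have hq : ContinuousOn (fun p => g p / F r p) (closure Ω) :=
    hg.continuousOn.div hψc.continuousOn fun p hp => (F_pos_closure hr0 hr1 hp).ne'
  obtain ⟨p₀, hp₀, hmax⟩ := hcomp.exists_isMaxOn ⟨p₁, subset_closure hp₁⟩ hq
  set c := g p₀ / F r p₀ with hc
  have hcpos : 0 < c :=
    (div_pos hgp (F_pos_closure hr0 hr1 (subset_closure hp₁))).trans_le (hmax (subset_closure hp₁))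
  have hψ₀ := F_pos_closure hr0 hr1 hp₀
  have hgp₀ : g p₀ = c * F r p₀ := by rw [hc]; field_simp
  have hp₀Ω : p₀ ∈ Ω := by
    by_contra hn
    have : p₀ ∈ frontier Ω := by rw [isOpen_Ω.frontier_eq]; exact ⟨hp₀, hn⟩
    have h0 := hg.boundary p₀ this
    rw [hc, h0, zero_div] at hcpos
    exact lt_irrefl _ hcpos
  have hgd : ContDiffAt ℝ 2 g p₀ := hg.contDiffOn.contDiffAt (isOpen_Ω.mem_nhds hp₀Ω)
  have hFd : ContDiffAt ℝ 2 (c • F r) p₀ := ((contDiff_F r).const_smul c).contDiffAt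
  have hmin : IsLocalMin (c • F r - g) p₀ := by
    filter_upwards [isOpen_Ω.mem_nhds hp₀Ω] with p hp
    have h1 : g p / F r p ≤ c := hmax (subset_closure hp)
    rw [div_le_iff₀ (F_pos_closure hr0 hr1 (subset_closure hp))] at h1
    simp only [Pi.sub_apply, Pi.smul_apply, smul_eq_mul, ← hgp₀, sub_self]
    linarith
  have hlap : 0 ≤ (Δ (c • F r - g)) p₀ := lap_nonneg (hFd.sub hgd) hmin
  have e1 : (Δ (c • F r - g)) p₀ = (Δ (c • F r)) p₀ - (Δ g) p₀ := ContDiffAt.laplacian_sub hFd hgd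
  have e2 : (Δ (c • F r)) p₀ = c • (Δ (F r)) p₀ :=
    InnerProductSpace.laplacian_smul c (contDiff_F r).contDiffAt
  have e3 := hg.eq p₀ hp₀Ω
  rw [e1, e2, lap_F, smul_eq_mul] at hlap
  have h5 : 0 ≤ c * F r p₀ * (μ - (2 * Real.pi * r) ^ 2) := by
    rw [← hgp₀]
    have : g p₀ * (2 * Real.pi * r) ^ 2 = c * ((2 * Real.pi * r) ^ 2 * F r p₀) := by
      rw [hgp₀]; ring
    linarith
  have h6 : 0 < c * F r p₀ := mul_pos hcpos hψ₀
  have h7 : c * F r p₀ * (μ - (2 * Real.pi * r) ^ 2) < 0 :=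
    mul_neg_of_pos_of_neg h6 (by linarith)
  linarith

lemma isFirstEigenvalue : IsFirstEigenvalue Ω ((2 * Real.pi) ^ 2) := by
  refine ⟨⟨φ, isDirichletEigenfunction_φ⟩, ?_⟩
  rintro μ ⟨g, hg⟩
  obtain ⟨p, hp, h⟩ := hg.nontrivial
  rcases lt_or_gt_of_ne h with h' | h'
  · exact eigenvalue_ge (neg_eigen hg) hp (by simpa using h')
  · exact eigenvalue_ge hg hp h'

/-! ### The failure of convexity -/

/-- the points used -/
noncomputable def pt (s : ℝ) : Pl := !₂[s, 0]

lemma φ_pt (s : ℝ) : φ (pt s) = 2 / (3 * √3) * (Real.sin (2 * Real.pi * (1 / 3 + s)) +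
    2 * Real.sin (2 * Real.pi * (1 / 3 - s / 2))) := by
  unfold φ F wave pt
  simp only [Pi.add_apply]
  congr 1
  have e1 : (1 / 3 + 1 * (1 * s + 0 * 0) : ℝ) = 1 / 3 + s := by ring
  have e2 : (1 / 3 + 1 * (-1 / 2 * s + √3 / 2 * 0) : ℝ) = 1 / 3 - s / 2 := by ring
  have e3 : (1 / 3 + 1 * (-1 / 2 * s + -(√3 / 2) * 0) : ℝ) = 1 / 3 - s / 2 := by ring
  simp only [Matrix.cons_val_zero, Matrix.cons_val_one, e1, e2, e3]
  ring

lemma φ_zero : φ (pt 0) = 1 := by
  rw [φ_pt]
  have e1 : 2 * Real.pi * (1 / 3 + 0) = Real.pi - Real.pi / 3 := by ring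
  have e2 : 2 * Real.pi * (1 / 3 - 0 / 2) = Real.pi - Real.pi / 3 := by ring
  rw [e1, e2, Real.sin_pi_sub, Real.sin_pi_div_three]
  field_simp
  norm_num

lemma φ_sixth : φ (pt (1 / 6)) = 4 / (3 * √3) := by
  rw [φ_pt]
  have e1 : 2 * Real.pi * (1 / 3 + 1 / 6) = Real.pi := by ring
  have e2 : 2 * Real.pi * (1 / 3 - 1 / 6 / 2) = Real.pi / 2 := by ring
  rw [e1, e2, Real.sin_pi, Real.sin_pi_div_two]
  ring

lemma φ_twelfth : φ (pt (1 / 12)) = (1 + √3 * √2 + √2) / (3 * √3) := by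
  rw [φ_pt]
  have e1 : 2 * Real.pi * (1 / 3 + 1 / 12) = Real.pi - Real.pi / 6 := by ring
  have e2 : 2 * Real.pi * (1 / 3 - 1 / 12 / 2) = Real.pi / 3 + Real.pi / 4 := by ring
  rw [e1, e2, Real.sin_pi_sub, Real.sin_pi_div_six, Real.sin_add, Real.sin_pi_div_three,
    Real.cos_pi_div_four, Real.cos_pi_div_three, Real.sin_pi_div_four]
  field_simp
  ring

lemma pt_mem {s : ℝ} (h0 : 0 ≤ s) (h1 : s < 1 / 3) : pt s ∈ Ω := by
  unfold Ω pt cu cv cw
  simp only [mem_ofPred_eq, Matrix.cons_val_zero, Matrix.cons_val_one]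
  refine ⟨?_, ?_, ?_⟩ <;> linarith

lemma fourth_lt : φ (pt (1 / 12)) ^ 4 < φ (pt (1 / 6)) := by
  rw [φ_sixth, φ_twelfth]
  have h3 : √3 ^ 2 = 3 := Real.sq_sqrt (by norm_num)
  have h2 : √2 ^ 2 = 2 := Real.sq_sqrt (by norm_num)
  have p3 : 0 < √3 := by positivity
  have p2 : 0 < √2 := by positivity
  have b3 : √3 < 1.7321 := by
    rw [Real.sqrt_lt' (by norm_num)]; norm_num
  have b2 : √2 < 1.4143 := by
    rw [Real.sqrt_lt' (by norm_num)]; norm_num
  have hs : 1 + √3 * √2 + √2 < 4.865 := by nlinarith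
  have hs0 : 0 < 1 + √3 * √2 + √2 := by positivity
  have h4 : (1 + √3 * √2 + √2) ^ 4 < 4.865 ^ 4 := by
    apply pow_lt_pow_left₀ hs hs0.le (by norm_num)
  have h5 : (3 * √3) ^ 4 = 729 := by
    rw [mul_pow, show √3 ^ 4 = (√3 ^ 2) ^ 2 by ring, h3]; norm_num
  rw [div_pow, h5, div_lt_div_iff₀ (by norm_num) (by positivity)]
  have h6 : (1 + √3 * √2 + √2) ^ 4 * (3 * √3) < 4.865 ^ 4 * (3 * 1.7321) := by
    apply mul_lt_mul'' h4 (by linarith) (by positivity) (by positivity)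
  calc (1 + √3 * √2 + √2) ^ 4 * (3 * √3) < 4.865 ^ 4 * (3 * 1.7321) := h6
    _ < 4 * 729 := by norm_num

lemma not_convex : ¬ ConvexOn ℝ Ω fun p => √(-Real.log (φ p)) := by
  intro h
  have hm := h.2 (pt_mem le_rfl (by norm_num)) (pt_mem (s := 1 / 6) (by norm_num) (by norm_num))
    (show (0 : ℝ) ≤ 1 / 2 by norm_num) (show (0 : ℝ) ≤ 1 / 2 by norm_num) (by norm_num)
  have e : (1 / 2 : ℝ) • pt 0 + (1 / 2 : ℝ) • pt (1 / 6) = pt (1 / 12) := by
    unfold pt
    ext i
    fin_cases i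
    · simp
      norm_num
    · simp
  rw [e] at hm
  simp only [φ_zero, Real.log_one, neg_zero, Real.sqrt_zero, smul_eq_mul, mul_zero,
    zero_add] at hm
  have hpos := φ_pos (pt_mem (s := 1 / 12) (by norm_num) (by norm_num))
  have hpos6 := φ_pos (pt_mem (s := 1 / 6) (by norm_num) (by norm_num))
  have hle := φ_le_one (pt_mem (s := 1 / 12) (by norm_num) (by norm_num))
  have hle6 := φ_le_one (pt_mem (s := 1 / 6) (by norm_num) (by norm_num))
  have hl : 0 ≤ -Real.log (φ (pt (1 / 12))) := by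
    have := Real.log_nonpos hpos.le hle; linarith
  have hl6 : 0 ≤ -Real.log (φ (pt (1 / 6))) := by
    have := Real.log_nonpos hpos6.le hle6; linarith
  have hsq := pow_le_pow_left₀ (Real.sqrt_nonneg _) hm 2
  rw [Real.sq_sqrt hl, mul_pow, Real.sq_sqrt hl6] at hsq
  have hlog : Real.log (φ (pt (1 / 12)) ^ 4) < Real.log (φ (pt (1 / 6))) :=
    Real.log_lt_log (by positivity) fourth_lt
  rw [Real.log_pow] at hlog
  push_cast at hlog
  linarith

/-- **The first Dirichlet eigenfunction of a bounded convex domain, normalized so that `φ ≤ 1`,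
need not be `1/2`-log-concave**: counterexample in the plane (an equilateral triangle). -/
theorem result : ∃ (Ω : Set (EuclideanSpace ℝ (Fin 2))) (φ : EuclideanSpace ℝ (Fin 2) → ℝ),
    Ω.Nonempty ∧ IsOpen Ω ∧ Convex ℝ Ω ∧ Bornology.IsBounded Ω ∧
    IsPositiveFirstEigenfunction Ω φ ∧ (∀ x ∈ Ω, φ x ≤ 1) ∧
    ¬ ConvexOn ℝ Ω (fun x => √(-Real.log (φ x))) :=
  ⟨Ω, φ, nonempty_Ω, isOpen_Ω, convex_Ω, isBounded_Ω,
    ⟨_, isFirstEigenvalue, isDirichletEigenfunction_φ, fun _ hp => φ_pos hp⟩,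
    fun _ hp => φ_le_one hp, not_convex⟩

end Pool.Agent.Results.MP_c418e9_an.Triangle
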